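import Pool.Agent.Helper40.KZ.Stmts

/-! Module JTP5: joinings for functions with finitely many Fourier coefficients. -/

open Finset Filter MeasureTheory Topology
open scoped ComplexConjugate InnerProductSpace

namespace Pool.Agent.Helper40.KZ

open Pool.Agent.Helper16.AZ (T E Op mm fc Ind)
open Pool.Agent.Helper40.JZ (U cs tor Lift pj ms chi vz LM StrP cs_zero cs_succ cs_add)
open UnitAddTorus (mFourier)

namespace JTP5aux

theorem cs_mul {r : ℕ} (θ : T r) (f : T r → U) (p n : ℕ) (x : T r) :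
    cs θ f (p * n) x = ∑ j ∈ range n, cs θ f p (x + p • (j • θ)) := by
  induction n with
  | zero => simp [cs_zero]
  | succ n ih =>
    rw [Nat.mul_succ, cs_add, ih, sum_range_succ, mul_smul]

theorem continuous_cs {r : ℕ} (θ : T r) {f : T r → U} (hf : Continuous f) (n : ℕ) :
    Continuous (cs θ f n) := by
  unfold cs
  exact continuous_finsetSum _ fun j _ => hf.comp (continuous_id.add continuous_const)

theorem norm_fourier' (n : ℤ) (x : U) : ‖(fourier n x : ℂ)‖ = 1 := by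
  rw [fourier_apply]
  exact Circle.norm_coe _

theorem fourier_add' {a : ℤ} {x y : U} : (fourier a (x + y) : ℂ) = fourier a x * fourier a y := by
  simp only [fourier_apply, smul_add, AddCircle.toCircle_add, Circle.coe_mul]

theorem mF_eq {s : ℕ} (a : Fin s → ℤ) (k : T s) :
    (mFourier a k : ℂ) = fourier 1 (chi a k) := by
  have h1 : (mFourier a k : ℂ) = ∏ i, (fourier (a i) (k i) : ℂ) := rfl
  have h2 : ∀ S : Finset (Fin s), (fourier 1 (∑ i ∈ S, a i • k i) : ℂ) =
      ∏ i ∈ S, (fourier (a i) (k i) : ℂ) := by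
    intro S
    induction S using Finset.induction_on with
    | empty => simp
    | insert i S hi ih =>
      rw [Finset.sum_insert hi, Finset.prod_insert hi, fourier_add', ih]
      congr 1
      rw [fourier_apply, fourier_apply, one_smul]
  rw [h1]
  exact (h2 univ).symm

/-- the cocycle of the pair -/
def ll {r : ℕ} (θ : T r) (F F' : T r → U) (p q : ℕ) (x₀ : T r) (z : T r) : U :=
  cs θ F p (x₀ + p • z) - cs θ F' q (x₀ + q • z)

theorem cs_ll {r : ℕ} (θ : T r) (F F' : T r → U) (p q : ℕ) (x₀ : T r) (n : ℕ) :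
    cs θ (ll θ F F' p q x₀) n 0 = cs θ F (p * n) x₀ - cs θ F' (q * n) x₀ := by
  rw [cs_mul, cs_mul, ← Finset.sum_sub_distrib]
  unfold cs
  refine Finset.sum_congr rfl fun j _ => ?_
  rw [zero_add]
  rfl

/-- one term -/
noncomputable def tm {r s : ℕ} (θ : T r) (f : T r → T s) (p q : ℕ) (y₀ : T (r + s))
    (g g' : (Fin s → ℤ) → T r → ℂ) (a b : Fin s → ℤ) (n : ℕ) : ℂ :=
  (g a (ini ((SA θ f)^[p * n] y₀)) * mFourier a (las ((SA θ f)^[p * n] y₀))) *
    conj (g' b (ini ((SA θ f)^[q * n] y₀)) * mFourier b (las ((SA θ f)^[q * n] y₀)))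

theorem tm_eq {r s : ℕ} (θ : T r) (f : T r → T s) (p q : ℕ) (y₀ : T (r + s))
    (g g' : (Fin s → ℤ) → T r → ℂ) (a b : Fin s → ℤ) (n : ℕ) :
    tm θ f p q y₀ g g' a b n = (fourier 1 (chi a (las y₀)) *
      conj (fourier 1 (chi b (las y₀)) : ℂ)) *
      (fourier 1 (cs θ (ll θ (fa f a) (fa f b) p q (ini y₀)) n 0) *
        (g a (ini y₀ + p • (0 + n • θ)) * conj (g' b (ini y₀ + q • (0 + n • θ))))) := by
  have h1 : ∀ m : ℕ, (SA θ f)^[m] y₀ = sn (ini y₀ + m • θ) (las y₀ + cv θ f m (ini y₀)) := by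
    intro m
    conv_lhs => rw [← sn_ini_las y₀]
    exact SA_iterate θ f m _ _
  have h2 : (fourier 1 (cs θ (ll θ (fa f a) (fa f b) p q (ini y₀)) n 0) : ℂ) =
      fourier 1 (cs θ (fa f a) (p * n) (ini y₀)) *
        conj (fourier 1 (cs θ (fa f b) (q * n) (ini y₀)) : ℂ) := by
    rw [cs_ll, ← fourier_neg]
    simp only [fourier_apply, ← Circle.coe_mul, ← AddCircle.toCircle_add]
    congr 2
    rw [one_smul, one_smul, neg_smul, one_smul, sub_eq_add_neg]
  unfold tm
  rw [h1, h1]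
  simp only [ini_sn, las_sn, zero_add, mF_eq, chi_add, chi_cv]
  rw [h2, fourier_add', fourier_add']
  rw [mul_smul, mul_smul]
  simp only [map_mul]
  ring

end JTP5aux

open JTP5aux in
theorem st_JTP5 : Pool.Agent.Helper40.JZ.ST_COB → ST_JTP5 := by
  classical
  intro hCOB r s θ f hθ hf p q y₀ A A' g g' R w hp hq hg hg' hR hRs hnR ε hε
  -- the bound of every term
  set β : (Fin s → ℤ) × (Fin s → ℤ) → ℝ := fun c => if c ∈ R then
    ‖∫ z, fourier 1 (w c.1 c.2 z) * (g c.1 (ini y₀ + p • z) *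
      conj (g' c.2 (ini y₀ + q • z))) ∂(mm r)‖ else 0 with hβ
  set G : (Fin s → ℤ) × (Fin s → ℤ) → T r → ℂ :=
    fun c z => g c.1 (ini y₀ + p • z) * conj (g' c.2 (ini y₀ + q • z)) with hG
  have hGc : ∀ c, Continuous (G c) := by
    intro c
    have h1 : ∀ m : ℕ, Continuous fun z : T r => ini y₀ + m • z := fun m =>
      continuous_const.add (continuous_const_smul m)
    exact ((hg c.1).comp (h1 p)).mul (Complex.continuous_conj.comp ((hg' c.2).comp (h1 q)))
  have hlc : ∀ a b : Fin s → ℤ, Continuous (ll θ (fa f a) (fa f b) p q (ini y₀)) := by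
    intro a b
    have h1 : ∀ m : ℕ, Continuous fun z : T r => ini y₀ + m • z := fun m =>
      continuous_const.add (continuous_const_smul m)
    exact ((continuous_cs θ (continuous_fa hf a) p).comp (h1 p)).sub
      ((continuous_cs θ (continuous_fa hf b) q).comp (h1 q))
  set m : ℝ := ((A ×ˢ A').card : ℝ) + 1 with hm
  have hm0 : 0 < m := by positivity
  have hε' : 0 < ε / (2 * m) := by positivity
  -- the sums of the terms
  have key : ∀ c ∈ A ×ˢ A', ∀ᶠ M : ℕ in atTop,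
      ‖∑ n ∈ range M, tm θ f p q y₀ g g' c.1 c.2 n‖ ≤ (β c + ε / (2 * m)) * M := by
    intro c hc
    have h0 : ∀ M : ℕ, ‖∑ n ∈ range M, tm θ f p q y₀ g g' c.1 c.2 n‖ =
        ‖∑ n ∈ range M, fourier 1 (cs θ (ll θ (fa f c.1) (fa f c.2) p q (ini y₀)) n 0) *
          G c (0 + n • θ)‖ := by
      intro M
      have : ∑ n ∈ range M, tm θ f p q y₀ g g' c.1 c.2 n =
          (fourier 1 (chi c.1 (las y₀)) * conj (fourier 1 (chi c.2 (las y₀)) : ℂ)) *
          ∑ n ∈ range M, fourier 1 (cs θ (ll θ (fa f c.1) (fa f c.2) p q (ini y₀)) n 0) *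
            G c (0 + n • θ) := by
        rw [Finset.mul_sum]
        exact Finset.sum_congr rfl fun n _ => tm_eq θ f p q y₀ g g' c.1 c.2 n
      rw [this, norm_mul, norm_mul, RCLike.norm_conj, norm_fourier', norm_fourier', one_mul,
        one_mul]
    obtain ⟨hA, hB⟩ := hCOB r θ hθ (ll θ (fa f c.1) (fa f c.2) p q (ini y₀)) (G c) 0 (hlc _ _)
      (hGc c)
    by_cases hcR : c ∈ R
    · have h1 := hRs c hcR
      have h2 : ∀ᵐ z ∂(mm r), w c.1 c.2 (z + θ) = ll θ (fa f c.1) (fa f c.2) p q (ini y₀) z +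
          w c.1 c.2 z := by
        filter_upwards [h1.2] with z hz
        have : w c.1 c.2 (z + θ) = cs θ (fa f c.1) p (ini y₀ + p • z) + w c.1 c.2 z -
            cs θ (fa f c.2) q (ini y₀ + q • z) := by
          rw [← hz]
          abel
        rw [this]
        unfold ll
        abel
      filter_upwards [hB _ h1.1 h2 _ hε'] with M hM
      rw [h0 M]
      have hb : β c = ‖∫ z, fourier 1 (w c.1 c.2 z) * G c z ∂(mm r)‖ := by
        simp only [hβ, hcR, if_true, hG]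
      rw [hb]
      exact hM
    · have h2 : ∀ u : T r → U, Measurable u →
          ¬ ∀ᵐ z ∂(mm r), u (z + θ) = ll θ (fa f c.1) (fa f c.2) p q (ini y₀) z + u z := by
        intro u hu h
        refine hnR c hc hcR u ⟨hu, ?_⟩
        filter_upwards [h] with z hz
        rw [hz]
        unfold ll
        abel
      have h3 := (hA h2).norm
      rw [norm_zero] at h3
      filter_upwards [h3.eventually_lt_const hε', eventually_gt_atTop 0] with M hM hM0
      rw [h0 M]
      have hMr : (0 : ℝ) < M := by exact_mod_cast hM0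
      rw [norm_div, div_lt_iff₀ (by simpa using hMr)] at hM
      have hb : β c = 0 := by simp only [hβ, hcR, if_false]
      rw [hb, zero_add]
      refine hM.le.trans ?_
      simp
  -- boundedness
  have hbd : ∃ C : ℝ, 0 ≤ C ∧ ∀ n : ℕ,
      ‖∑ c ∈ A ×ˢ A', tm θ f p q y₀ g g' c.1 c.2 n‖ ≤ C := by
    have h1 : ∀ c : (Fin s → ℤ) × (Fin s → ℤ), ∃ C : ℝ, 0 ≤ C ∧
        ∀ n : ℕ, ‖tm θ f p q y₀ g g' c.1 c.2 n‖ ≤ C := by
      intro c
      obtain ⟨C, hC⟩ := (isCompact_univ.image (hGc c)).isBounded.exists_norm_le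
      refine ⟨max C 0, le_max_right _ _, fun n => ?_⟩
      rw [tm_eq, norm_mul, norm_mul, RCLike.norm_conj, norm_fourier', norm_fourier', one_mul,
        one_mul, norm_mul, norm_fourier', one_mul]
      exact (hC _ ⟨_, Set.mem_univ _, rfl⟩).trans (le_max_left _ _)
    choose C hC0 hC using h1
    refine ⟨∑ c ∈ A ×ˢ A', C c, Finset.sum_nonneg fun c _ => hC0 c, fun n => ?_⟩
    exact (norm_sum_le _ _).trans (Finset.sum_le_sum fun c _ => hC c n)
  obtain ⟨C, hC0, hC⟩ := hbd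
  have hall : ∀ᶠ M : ℕ in atTop, ∀ c ∈ A ×ˢ A',
      ‖∑ n ∈ range M, tm θ f p q y₀ g g' c.1 c.2 n‖ ≤ (β c + ε / (2 * m)) * M :=
    (Filter.eventually_all_finset _).2 key
  obtain ⟨M₁, hM₁⟩ := exists_nat_ge (2 * C / (ε / 2))
  filter_upwards [hall, eventually_ge_atTop M₁] with M hM hMM
  have hexp : ∀ n : ℕ, (∑ a ∈ A, g a (ini ((SA θ f)^[p * n] y₀)) *
      mFourier a (las ((SA θ f)^[p * n] y₀))) *
    conj (∑ b ∈ A', g' b (ini ((SA θ f)^[q * n] y₀)) *
      mFourier b (las ((SA θ f)^[q * n] y₀))) =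
      ∑ c ∈ A ×ˢ A', tm θ f p q y₀ g g' c.1 c.2 n := by
    intro n
    rw [map_sum, Finset.sum_mul_sum, Finset.sum_product]
    rfl
  have hIcc : ∀ F : ℕ → ℂ, ∑ n ∈ Icc 1 M, F n = ∑ n ∈ range M, F n - F 0 + F M := by
    intro F
    have h1 : ∑ n ∈ range (M + 1), F n = F 0 + ∑ n ∈ Icc 1 M, F n := by
      rw [Finset.range_eq_Ico, Finset.sum_eq_sum_Ico_succ_bot (Nat.succ_pos M)]
      rfl
    rw [sum_range_succ] at h1
    linear_combination -h1
  rw [Finset.sum_congr rfl fun n _ => hexp n, hIcc]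
  have hsw : ∑ n ∈ range M, ∑ c ∈ A ×ˢ A', tm θ f p q y₀ g g' c.1 c.2 n =
      ∑ c ∈ A ×ˢ A', ∑ n ∈ range M, tm θ f p q y₀ g g' c.1 c.2 n := Finset.sum_comm
  have h1 : ‖∑ n ∈ range M, ∑ c ∈ A ×ˢ A', tm θ f p q y₀ g g' c.1 c.2 n‖ ≤
      ((∑ c ∈ R, β c) + ε / 2) * M := by
    rw [hsw]
    refine (norm_sum_le _ _).trans ((Finset.sum_le_sum hM).trans ?_)
    rw [← Finset.sum_mul, Finset.sum_add_distrib, Finset.sum_const, nsmul_eq_mul]
    have h2 : ∑ c ∈ A ×ˢ A', β c = ∑ c ∈ R, β c := by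
      symm
      refine Finset.sum_subset hR fun c _ hcR => ?_
      simp only [hβ, hcR, if_false]
    rw [h2]
    refine mul_le_mul_of_nonneg_right (by
      have h3 : ((A ×ˢ A').card : ℝ) * (ε / (2 * m)) ≤ ε / 2 := by
        have h4 : ((A ×ˢ A').card : ℝ) ≤ m := by rw [hm]; linarith
        calc ((A ×ˢ A').card : ℝ) * (ε / (2 * m)) ≤ m * (ε / (2 * m)) :=
              mul_le_mul_of_nonneg_right h4 hε'.le
          _ = ε / 2 := by field_simp
      linarith) (Nat.cast_nonneg M)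
  have h2 : ∑ c ∈ R, β c = ∑ c ∈ R, ‖∫ z, fourier 1 (w c.1 c.2 z) *
      (g c.1 (ini y₀ + p • z) * conj (g' c.2 (ini y₀ + q • z))) ∂(mm r)‖ := by
    refine Finset.sum_congr rfl fun c hc => ?_
    simp only [hβ, hc, if_true]
  rw [h2] at h1
  have h3 : 2 * C ≤ ε / 2 * M := by
    have h4 : 2 * C / (ε / 2) ≤ M := hM₁.trans (by exact_mod_cast hMM)
    rw [div_le_iff₀ (by positivity)] at h4
    linarith
  refine (norm_add_le _ _).trans ?_
  have h5 := norm_sub_le (∑ n ∈ range M, ∑ c ∈ A ×ˢ A', tm θ f p q y₀ g g' c.1 c.2 n)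
    (∑ c ∈ A ×ˢ A', tm θ f p q y₀ g g' c.1 c.2 0)
  have h6 := hC 0
  have h7 := hC M
  linarith

end Pool.Agent.Helper40.KZ
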