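import Pool.Agent.Helper40.KZ.Stmts
import Pool.Agent.Helper81.DZ.STA

/-! Module STA5: the resonances are small on the average. -/

open Finset Filter MeasureTheory Topology
open scoped ComplexConjugate InnerProductSpace

namespace Pool.Agent.Helper40.KZ

open Pool.Agent.Helper16.AZ (T E Op mm fc Ind)
open Pool.Agent.Helper16.BZ (co Wk EE ff EQ)
open Pool.Agent.Helper16.MD (MS PB Am RW Rich)
open Pool.Agent.Helper40.DZ (RI UR SK Good3 EE_RI sta_card)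
open Pool.Agent.Helper40.JZ (U cs tor Lift pj ms chi vz LM StrP)
open UnitAddTorus (mFourier)

namespace STA5aux

/-- the limit `H → ∞` -/
theorem abs4 (h1 : Pool.Agent.Helper40.JZ.ST_LMF) (P : Finset ℕ) (hP : ∀ p ∈ P, 1 ≤ p)
    (N : ℕ → ℕ → ℕ → ℕ → ℝ)
    (N₀ : ℕ → ℕ → ℝ) (hN : ∀ p ∈ P, ∀ q ∈ P, SK (N p q)) (hN₀ : SK N₀) (B : ℝ)
    (hB : ∀ q ∈ P, ∑ p ∈ P.erase q, (LM (N p q) p - LM N₀ p) ≤ B) (e : ℝ) (he : 0 < e) :
    ∃ t₀ : ℕ, ∀ H : ℕ, t₀ ≤ H → ∑ h ∈ range H, ∑ h' ∈ range H, ∑ p ∈ P, ∑ q ∈ P.erase p,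
      (N p q (p * h) (p * h') - N₀ (p * h) (p * h')) ≤ (P.card * B + e) * (H : ℝ) ^ 2 := by
  have hlimH : Tendsto (fun H : ℕ => (∑ h ∈ range H, ∑ h' ∈ range H, ∑ p ∈ P,
      ∑ q ∈ P.erase p, (N p q (p * h) (p * h') - N₀ (p * h) (p * h'))) / (H : ℝ) ^ 2) atTop
      (𝓝 (∑ p ∈ P, ∑ q ∈ P.erase p, (LM (N p q) p - LM N₀ p))) := by
    have h2 : ∀ H : ℕ, (∑ h ∈ range H, ∑ h' ∈ range H, ∑ p ∈ P, ∑ q ∈ P.erase p,
        (N p q (p * h) (p * h') - N₀ (p * h) (p * h'))) / (H : ℝ) ^ 2 =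
        ∑ p ∈ P, ∑ q ∈ P.erase p,
          ((∑ h ∈ range H, ∑ h' ∈ range H, N p q (p * h) (p * h')) / (H : ℝ) ^ 2 -
          (∑ h ∈ range H, ∑ h' ∈ range H, N₀ (p * h) (p * h')) / (H : ℝ) ^ 2) := by
      intro H
      have h3 : ∑ h ∈ range H, ∑ h' ∈ range H, ∑ p ∈ P, ∑ q ∈ P.erase p,
          (N p q (p * h) (p * h') - N₀ (p * h) (p * h')) =
          ∑ p ∈ P, ∑ q ∈ P.erase p, ∑ h ∈ range H, ∑ h' ∈ range H,
            (N p q (p * h) (p * h') - N₀ (p * h) (p * h')) := by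
        rw [Finset.sum_congr rfl fun h _ => Finset.sum_comm, Finset.sum_comm]
        refine Finset.sum_congr rfl fun p _ => ?_
        rw [Finset.sum_congr rfl fun h _ => Finset.sum_comm, Finset.sum_comm]
      rw [h3]
      simp only [Finset.sum_div, sub_div, Finset.sum_sub_distrib]
    simp only [h2]
    refine tendsto_finsetSum _ fun p hp => tendsto_finsetSum _ fun q hq => ?_
    exact ((h1 (N p q) (hN p hp q (Finset.mem_of_mem_erase hq))).1 p (hP p hp)).sub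
      ((h1 N₀ hN₀).1 p (hP p hp))
  have hbound : ∑ p ∈ P, ∑ q ∈ P.erase p, (LM (N p q) p - LM N₀ p) ≤ P.card * B := by
    have h2 : ∑ p ∈ P, ∑ q ∈ P.erase p, (LM (N p q) p - LM N₀ p) =
        ∑ q ∈ P, ∑ p ∈ P.erase q, (LM (N p q) p - LM N₀ p) := by
      refine Finset.sum_comm' fun p q => ?_
      simp only [Finset.mem_erase]
      constructor
      · rintro ⟨a, b, c⟩
        exact ⟨⟨b.symm, a⟩, c⟩
      · rintro ⟨⟨a, b⟩, c⟩
        exact ⟨b, a.symm, c⟩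
    rw [h2]
    refine (Finset.sum_le_sum hB).trans ?_
    rw [Finset.sum_const, nsmul_eq_mul]
  have h2 := hlimH.eventually (gt_mem_nhds (show (∑ p ∈ P, ∑ q ∈ P.erase p,
    (LM (N p q) p - LM N₀ p)) < P.card * B + e by linarith))
  obtain ⟨t₀, ht₀⟩ := eventually_atTop.1 h2
  refine ⟨max t₀ 1, fun H hH => ?_⟩
  have h3 := ht₀ H ((le_max_left _ _).trans hH)
  have h4 : (0 : ℝ) < (H : ℝ) ^ 2 := by
    have : (1 : ℝ) ≤ H := by exact_mod_cast (le_max_right t₀ 1).trans hH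
    positivity
  exact ((div_lt_iff₀ h4).1 h3).le

/-- the trivial type -/
def t0 (r s : ℕ) : TY r s := (⊥, fun _ _ _ => 0)

theorem ok_t0 {r s : ℕ} (θ : T r) (f : T r → T s) (q : ℕ) : OK θ f q (t0 r s) := by
  refine ⟨?_, ?_, ?_⟩
  · intro a ha
    have h0 : a = 0 := AddSubgroup.mem_bot.1 ha
    subst h0
    refine ⟨fun σ _ => measurable_const, fun σ _ σ' _ => ?_, fun σ _ => ?_⟩
    · exact Filter.Eventually.of_forall fun x => by simp [t0]
    · refine Filter.Eventually.of_forall fun x => ?_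
      have h1 : ∀ y, fa f (0 : Fin s → ℤ) y = 0 := fun y => by simp [fa, chi]
      simp [t0, h1]
  · intro a _ b _ σ _
    exact Filter.Eventually.of_forall fun x => by simp [t0]
  · intro a ha _ i
    have h0 : a = 0 := AddSubgroup.mem_bot.1 ha
    rw [h0]
    simp

end STA5aux

open STA5aux in
theorem st_STA5 : ST_NTF5 → ST_SKN5 → ST_CLF5 → ST_QLU5 → Pool.Agent.Helper40.JZ.ST_LMF →
    ST_CNT → ST_MPA5 → ST_STA5 := by
  intro hNTF hSKN hCLF hQLU hLMF hCNT hMPA r s θ f hθ hf d φ c hφ hc δ hδ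
  have hm := (hMPA r s θ f hf).1
  have hS : Continuous (SA θ f) := continuous_SA θ hf
  have hfm : Measurable f := hf.measurable
  obtain ⟨V, hV⟩ := (isCompact_range hc).isBounded.exists_norm_le
  have hV' : ∀ y, ‖c y‖ ≤ V := fun y => hV _ ⟨y, rfl⟩
  have hV0 : 0 ≤ V := (norm_nonneg _).trans (hV' 0)
  have hEb : ∀ k k' y, ‖EE (SA θ f) φ c k k' y‖ ^ 2 ≤ V ^ 4 := by
    intro k k' y
    have h6 : ‖EE (SA θ f) φ c k k' y‖ ≤ V ^ 2 := by
      refine (norm_inner_le_norm _ _).trans ?_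
      rw [Pool.Agent.Helper16.BZ.Wk_norm _ φ c hφ.2, Pool.Agent.Helper16.BZ.Wk_norm _ φ c hφ.2,
        pow_two]
      exact mul_le_mul (hV' _) (hV' _) (norm_nonneg _) hV0
    calc ‖EE (SA θ f) φ c k k' y‖ ^ 2 ≤ (V ^ 2) ^ 2 := pow_le_pow_left₀ (norm_nonneg _) h6 2
      _ = V ^ 4 := by ring
  have hRI : ∀ k k', RI (EE (SA θ f) φ c k k') := fun k k' =>
    EE_RI hS hm hφ (RI.of_continuous hc) k k'
  have hL2 : ∀ k k', MemLp (EE (SA θ f) φ c k k') 2 (mm (r + s)) := fun k k' =>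
    (hRI k k').memLp 2
  have hint : ∀ k k', ∫ y, ‖EE (SA θ f) φ c k k' y‖ ^ 2 ∂(mm (r + s)) ≤ V ^ 4 := by
    intro k k'
    have h6 := norm_integral_le_of_norm_le_const (μ := mm (r + s)) (C := V ^ 4)
      (f := fun y => ‖EE (SA θ f) φ c k k' y‖ ^ 2)
      (Eventually.of_forall fun y => by
        rw [Real.norm_of_nonneg (by positivity)]
        exact hEb k k' y)
    have h7 : (mm (r + s)).real Set.univ = 1 := by simp
    rw [h7, mul_one] at h6
    exact (le_abs_self _).trans h6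
  -- the kernels
  obtain ⟨N₀, hN₀⟩ : ∃ N₀ : ℕ → ℕ → ℝ,
      N₀ = fun k k' => ‖∫ y, EE (SA θ f) φ c k k' y ∂(mm (r + s))‖ ^ 2 := ⟨_, rfl⟩
  obtain ⟨NN, hNN⟩ : ∃ NN : ℕ → TY r s → ℕ → ℕ → ℝ,
      NN = fun q t k k' => NT q t (EE (SA θ f) φ c k k') := ⟨_, rfl⟩
  have hSK₀ : SK N₀ := by
    rw [hN₀]
    exact (hSKN r s θ f hf 1 (t0 r s) d φ c le_rfl (ok_t0 θ f 1) hφ hc).2
  have hSK : ∀ q : ℕ, 1 ≤ q → ∀ t : TY r s, OK θ f q t → SK (NN q t) := by
    intro q hq t ht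
    rw [hNN]
    exact (hSKN r s θ f hf q t d φ c hq ht hφ hc).1
  set C : ℝ := V ^ 4 with hC
  have hC0 : 0 ≤ C := by positivity
  -- the parameters
  obtain ⟨κ, hκ⟩ : ∃ κ : ℝ, κ = δ / (16 * (C + 1)) := ⟨_, rfl⟩
  have hκ0 : 0 < κ := by rw [hκ]; positivity
  have hκC : κ * C ≤ δ / 16 := by
    have h1 : κ * (C + 1) = δ / 16 := by
      rw [hκ]
      field_simp
    nlinarith
  obtain ⟨K₀, n₀, hcnt⟩ := hCNT κ (s + r) hκ0
  obtain ⟨η, hη⟩ : ∃ η : ℝ, η = δ / (16 * ((K₀ : ℝ) + 1)) := ⟨_, rfl⟩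
  have hK₀0 : (0 : ℝ) ≤ K₀ := Nat.cast_nonneg _
  have hη0 : 0 < η := by rw [hη]; positivity
  have hKη : (K₀ : ℝ) * η ≤ δ / 16 := by
    have h1 : ((K₀ : ℝ) + 1) * η = δ / 16 := by
      rw [hη]
      field_simp
    nlinarith
  have hη2 : 0 < η / 2 := by positivity
  -- the choice of the window
  have hwin : ∀ᶠ K : ℕ in atTop,
      (∑ k ∈ range K, ∑ k' ∈ range K, N₀ k k') / (K : ℝ) ^ 2 < LM N₀ 1 + η / 2 := by
    have := ((hLMF N₀ hSK₀).1 1 le_rfl).eventually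
      (gt_mem_nhds (show LM N₀ 1 < LM N₀ 1 + η / 2 by linarith))
    simpa only [one_mul] using this
  obtain ⟨K, hK, hK1⟩ := (hwin.and (eventually_ge_atTop 1)).exists
  -- large primes
  have hq : ∃ q₀ : ℕ, ∀ q ≥ q₀, q.Prime → ∀ t : TY r s, OK θ f q t → ∀ k ∈ range K,
      ∀ k' ∈ range K, NN q t k k' ≤ N₀ k k' + η / 2 := by
    have h1 : ∀ k k' : ℕ, ∃ q₀ : ℕ, ∀ q ≥ q₀, q.Prime → ∀ t : TY r s, OK θ f q t →
        NN q t k k' ≤ N₀ k k' + η / 2 := by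
      intro k k'
      obtain ⟨q₀, h⟩ := hQLU r s θ f hθ hf _ (η / 2) (hL2 k k') hη2
      refine ⟨q₀, fun q hq hqp t ht => ?_⟩
      rw [hNN, hN₀]
      exact h q hq hqp t ht
    choose Q hQ using h1
    refine ⟨(range K).sup fun k => (range K).sup fun k' => Q k k', ?_⟩
    intro q hq hqp t ht k hk k' hk'
    refine hQ k k' q (le_trans ?_ hq) hqp t ht
    refine le_trans ?_ (Finset.le_sup (f := fun k => (range K).sup fun k' => Q k k') hk)
    exact Finset.le_sup (f := fun k' => Q k k') hk'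
  obtain ⟨q₀, hq₀⟩ := hq
  have hLM : ∀ q ≥ q₀, q.Prime → ∀ t : TY r s, OK θ f q t → LM (NN q t) 1 ≤ LM N₀ 1 + η := by
    intro q hq hqp t ht
    have h1 := (hLMF (NN q t) (hSK q hqp.one_lt.le t ht)).2.2.2.1 K hK1
    have h2 : (∑ k ∈ range K, ∑ k' ∈ range K, NN q t k k') / (K : ℝ) ^ 2 ≤
        (∑ k ∈ range K, ∑ k' ∈ range K, N₀ k k') / (K : ℝ) ^ 2 + η / 2 := by
      have h3 : (0 : ℝ) < (K : ℝ) ^ 2 := by
        have : (1 : ℝ) ≤ K := by exact_mod_cast hK1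
        positivity
      rw [div_add' _ _ _ h3.ne', div_le_div_iff_of_pos_right h3]
      calc ∑ k ∈ range K, ∑ k' ∈ range K, NN q t k k'
          ≤ ∑ k ∈ range K, ∑ k' ∈ range K, (N₀ k k' + η / 2) :=
            Finset.sum_le_sum fun k hk => Finset.sum_le_sum fun k' hk' =>
              hq₀ q hq hqp t ht k hk k' hk'
        _ = _ := by
            simp only [Finset.sum_add_distrib, Finset.sum_const, nsmul_eq_mul,
              Finset.card_range]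
            ring
    linarith
  -- the sum over the primes for a fixed `q`
  have hfix : ∀ q ≥ q₀, q.Prime → ∀ (P : Finset ℕ) (t : ℕ → TY r s), (∀ p ∈ P, p.Prime) →
      (∀ p ∈ P, OK θ f q (t p)) → ∑ p ∈ P, (LM (NN q (t p)) p - LM N₀ p) ≤
        (P.card : ℝ) * (κ * C + K₀ * η) + n₀ * C := by
    intro q hq hqp P t hPp hPt
    obtain ⟨Γ, hΓ, gen, Φ, Al, hgen, hAl0, hAlloc, hΦ1, hΦ2, hΦ3⟩ := hCLF r s θ f q hθ hf hqp
    -- the types in the coordinates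
    have hty : ∀ p : ℕ, ∃ B : AddSubgroup Γ, Al B ∧
        (p ∈ P → NA (fun k k' => Φ (EE (SA θ f) φ c k k')) B = NN q (t p)) := by
      intro p
      by_cases hp : p ∈ P
      · obtain ⟨B, hB, hB1⟩ := hΦ2 (t p) (hPt p hp)
        refine ⟨B, hB, fun _ => ?_⟩
        funext k k'
        rw [hNN]
        exact (hB1 _ (hL2 k k')).symm
      · exact ⟨⊥, hAl0, fun h => absurd h hp⟩
    choose Δ hΔ1 hΔ2 using hty
    have hall : ∀ B : AddSubgroup Γ, Al B →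
        SK (NA (fun k k' => Φ (EE (SA θ f) φ c k k')) B) ∧
        LM (NA (fun k k' => Φ (EE (SA θ f) φ c k k')) B) 1 ≤ LM N₀ 1 + η := by
      intro B hB
      obtain ⟨t', ht', h⟩ := hΦ3 B hB
      have h1 : NA (fun k k' => Φ (EE (SA θ f) φ c k k')) B = NN q t' := by
        funext k k'
        rw [hNN]
        exact h _ (hL2 k k')
      rw [h1]
      exact ⟨hSK q hqp.one_lt.le t' ht', hLM q hq hqp t' ht'⟩
    have h1 := hcnt q Γ gen (fun k k' => Φ (EE (SA θ f) φ c k k')) N₀ C η Al P Δ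
      hqp hgen hC0 hη0.le (fun k k' u => (hΦ1 _ (hL2 k k')).1 u)
      (fun k k' => (hΦ1 _ (hL2 k k')).2.1)
      (fun k k' => ((hΦ1 _ (hL2 k k')).2.2).trans (hint k k')) hSK₀
      (fun k k' => by
        rw [hN₀]
        obtain ⟨t', ht', h⟩ := hΦ3 ⊥ hAl0
        have h2 := (hNTF r s θ f q t' _ _ hqp.one_lt.le hfm ht' (hL2 k k') (hL2 k k')).1
        have h3 : ∑' u : (⊥ : AddSubgroup Γ), Φ (EE (SA θ f) φ c k k') (u : Γ) =
            Φ (EE (SA θ f) φ c k k') 0 := by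
          rw [tsum_eq_single (0 : (⊥ : AddSubgroup Γ))]
          · rfl
          · intro u hu
            exact absurd (Subsingleton.elim u 0) hu
        rw [← h _ (hL2 k k'), h3] at h2
        exact h2)
      hAl0 hAlloc hall hPp (fun p _ => hΔ1 p)
    refine le_trans (le_of_eq ?_) h1
    refine Finset.sum_congr rfl fun p hp => ?_
    rw [hΔ2 p hp]
  -- the block
  filter_upwards [sta_card (n₀ * C + C) (δ / 4) (by positivity), eventually_ge_atTop q₀,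
    sta_card 1 1 one_pos] with i hi hiq hi1 hrich t ht
  have hB := hi hrich
  have hB1 : (1 : ℝ) ≤ 1 * ((PB 1 i).card : ℝ) := hi1 hrich
  rw [one_mul] at hB1
  have hP : ∀ p ∈ PB 1 i, q₀ ≤ p ∧ p.Prime := by
    intro p hp
    unfold PB at hp
    rw [Finset.mem_filter, Finset.mem_Ioc] at hp
    refine ⟨?_, hp.2.1⟩
    have : i < 2 ^ i := Nat.lt_two_pow_self
    omega
  set n : ℝ := ((PB 1 i).card : ℝ) with hn
  obtain ⟨t₀, ht₀⟩ := abs4 hLMF (PB 1 i) (fun p hp => (hP p hp).2.one_lt.le)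
    (fun p q => NN q (t p q)) N₀
    (fun p _ q hq => hSK q (hP q hq).2.one_lt.le _ (ht p q)) hSK₀
    (n * (κ * C + K₀ * η) + n₀ * C)
    (fun q hq => by
      have h1 := hfix q (hP q hq).1 (hP q hq).2 ((PB 1 i).erase q) (fun p => t p q)
        (fun p hp => (hP p (Finset.mem_of_mem_erase hp)).2) (fun p _ => ht p q)
      refine h1.trans ?_
      have h2 : (((PB 1 i).erase q).card : ℝ) ≤ n := by
        rw [hn]
        exact_mod_cast Finset.card_le_card (Finset.erase_subset q (PB 1 i))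
      have h3 : 0 ≤ κ * C + K₀ * η := by positivity
      have := mul_le_mul_of_nonneg_right h2 h3
      linarith)
    (δ / 4) (by positivity)
  refine ⟨t₀, fun H hH => ?_⟩
  have h6 := ht₀ H hH
  have h8 : ∑ h ∈ range H, ∑ h' ∈ range H, ∑ p ∈ PB 1 i,
      ∫ y, ‖EE (SA θ f) φ c (p * h) (p * h') y‖ ^ 2 ∂(mm (r + s)) ≤ C * n * (H : ℝ) ^ 2 := by
    calc _ ≤ ∑ h ∈ range H, ∑ h' ∈ range H, ∑ p ∈ PB 1 i, C :=
          Finset.sum_le_sum fun h _ => Finset.sum_le_sum fun h' _ =>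
            Finset.sum_le_sum fun p _ => hint _ _
      _ = C * n * (H : ℝ) ^ 2 := by
          simp only [Finset.sum_const, nsmul_eq_mul, Finset.card_range]
          ring
  have h7 : ∑ h ∈ range H, ∑ h' ∈ range H, ∑ p ∈ PB 1 i, ∑ q ∈ (PB 1 i).erase p,
      (NT q (t p q) (EE (SA θ f) φ c (p * h) (p * h')) -
        ‖∫ y, EE (SA θ f) φ c (p * h) (p * h') y ∂(mm (r + s))‖ ^ 2) ≤
      (n * (n * (κ * C + K₀ * η) + n₀ * C) + δ / 4) * (H : ℝ) ^ 2 := by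
    refine le_trans (le_of_eq ?_) h6
    rw [hNN, hN₀]
  have h9 : ∀ h h' : ℕ, (∑ p ∈ PB 1 i,
      ∫ y, ‖EE (SA θ f) φ c (p * h) (p * h') y‖ ^ 2 ∂(mm (r + s)) +
      ∑ p ∈ PB 1 i, ∑ q ∈ (PB 1 i).erase p, (NT q (t p q) (EE (SA θ f) φ c (p * h) (p * h')) -
        ‖∫ y, EE (SA θ f) φ c (p * h) (p * h') y ∂(mm (r + s))‖ ^ 2)) =
      (∑ p ∈ PB 1 i, ∫ y, ‖EE (SA θ f) φ c (p * h) (p * h') y‖ ^ 2 ∂(mm (r + s))) +
      (∑ p ∈ PB 1 i, ∑ q ∈ (PB 1 i).erase p, (NT q (t p q) (EE (SA θ f) φ c (p * h) (p * h')) -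
        ‖∫ y, EE (SA θ f) φ c (p * h) (p * h') y ∂(mm (r + s))‖ ^ 2)) := fun _ _ => rfl
  rw [Finset.sum_congr rfl fun h _ => Finset.sum_congr rfl fun h' _ => h9 h h']
  rw [Finset.sum_congr rfl fun h _ => Finset.sum_add_distrib, Finset.sum_add_distrib]
  refine (add_le_add h8 h7).trans ?_
  rw [← add_mul]
  refine mul_le_mul_of_nonneg_right ?_ (by positivity)
  have h10 : (n₀ * C + C) * n ≤ δ / 4 * n * n := mul_le_mul_of_nonneg_right hB (by positivity)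
  have h11 : n * n * (κ * C + K₀ * η) ≤ n * n * (δ / 8) :=
    mul_le_mul_of_nonneg_left (by linarith) (by positivity)
  have h12 : (1 : ℝ) ≤ n * n := by nlinarith
  nlinarith [mul_le_mul_of_nonneg_left h12 hδ.le]

end Pool.Agent.Helper40.KZ
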